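import Pool.Agent.H.MP_d67245_co.Final

/-!
# The minimal number of `k`-abelian palindromes in words closed under reversal

For all `(k, ℓ)` outside the exceptional set `S` we determine the minimum `m(k, ℓ)` of `Pal_k(w)`
over the infinite words `w` over an `ℓ`-letter alphabet whose factor set is closed under reversal:
it is `13` for `ℓ = 2`, `7` for `ℓ = 3` and `5` for `ℓ ≥ 4` (and `ℓ + 1` for `ℓ ≥ 4` if all the
letters of the alphabet have to occur in `w`).

Upper bounds: a self-avoiding walk in the hexagonal lattice is built recursively as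
`E (n + 1) = E n · K n · (E n)ᴿ`, so that the word of its labels is closed under reversal; a long
`k`-palindrome would be a closed part of the walk. Lower bounds: an exhaustive search through the
Rauzy graphs, evaluated by the kernel, whose soundness is proved in `Search.lean`.
-/

set_option autoImplicit false

namespace Pool.Agent.Results.MP_d67245_co.LeastPal

open Pool.Agent.H.MP_d67245_co

/-- For `k ≥ 1`, `ℓ ≥ 2` and `(k, ℓ) ∉ S`, the minimum of `Pal k w` over the infinite words `w` over
an alphabet of `ℓ` letters with factor set closed under reversal is attained and equals `13` if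
`ℓ = 2`, `7` if `ℓ = 3` and `5` if `ℓ ≥ 4`; if moreover all letters have to occur in `w`, the
minimum is attained and equals `13` if `ℓ = 2`, `7` if `ℓ = 3` and `ℓ + 1` if `ℓ ≥ 4`. -/
theorem result (k ℓ : ℕ) (hk : 1 ≤ k) (hℓ : 2 ≤ ℓ) (hS : (k, ℓ) ∉ S) :
    IsLeast {N : ℕ∞ | ∃ w : ℕ → Fin ℓ, ClosedUnderReversal w ∧ Pal k w = N}
      (if ℓ = 2 then 13 else if ℓ = 3 then 7 else 5) ∧
    IsLeast {N : ℕ∞ | ∃ w : ℕ → Fin ℓ, Function.Surjective w ∧ ClosedUnderReversal w ∧
      Pal k w = N} (if ℓ = 2 then 13 else if ℓ = 3 then 7 else (ℓ : ℕ∞) + 1) :=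
  main k ℓ hk hℓ hS

end Pool.Agent.Results.MP_d67245_co.LeastPal
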